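import Pool.Agent.N176.GW.Stm
import Pool.Agent.N402.GW.Lin0

/-!
# GW/LIN: `⌊N / φ⌋` is linear along Fibonacci steps, few exceptions (helper402 for helper176)
-/

set_option autoImplicit false

namespace Pool.Agent.N402.GW

theorem lin : Pool.Agent.N176.GW.S_LIN := by
  intro m A U hm
  refine Lin0.main m A U hm _ fun i hi => ?_
  rw [Finset.mem_filter, Finset.mem_range] at hi
  exact hi

end Pool.Agent.N402.GW
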